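import Pool.Agent.Y197.SD.Stm

/-!
# SD-CAL: a Lipschitz function with bounded mixed second differences is `C^{1,1}`
-/

set_option autoImplicit false

open Filter Topology MeasureTheory

namespace Pool.Agent.Y385.SD

open Pool.Agent.Y197.SD

theorem mixed {a b C : ℝ} {g : ℝ → ℝ}
    (hmix : ∀ x s t : ℝ, 0 ≤ s → 0 ≤ t → a < x → x + s + t < b →
      |g (x + s + t) - g (x + s) - g (x + t) + g x| ≤ C * (s * t))
    {x y : ℝ} (hx : x ∈ Set.Ioo a b) (hy : y ∈ Set.Ioo a b) :
    ∀ᶠ h in 𝓝 (0 : ℝ), |(g (y + h) - g y) - (g (x + h) - g x)| ≤ C * |y - x| * |h| := by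
  -- the ordered case
  have key : ∀ x ∈ Set.Ioo a b, ∀ y ∈ Set.Ioo a b, x ≤ y →
      ∀ᶠ h in 𝓝 (0 : ℝ), |(g (y + h) - g y) - (g (x + h) - g x)| ≤ C * |y - x| * |h| := by
    intro x hx y hy hxy
    have h1 : 0 < min (x - a) (b - y) := lt_min (by linarith [hx.1]) (by linarith [hy.2])
    filter_upwards [Metric.ball_mem_nhds (0 : ℝ) h1] with h hh
    rw [mem_ball_zero_iff, Real.norm_eq_abs, lt_min_iff] at hh
    obtain ⟨hh1, hh2⟩ := hh
    rcases le_total 0 h with h0 | h0
    · rw [abs_of_nonneg h0] at hh2 ⊢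
      have h2 := hmix x (y - x) h (by linarith) h0 hx.1 (by linarith)
      have e1 : x + (y - x) + h = y + h := by ring
      have e2 : x + (y - x) = y := by ring
      rw [e1, e2] at h2
      rw [abs_of_nonneg (by linarith : (0 : ℝ) ≤ y - x)]
      have e3 : (g (y + h) - g y) - (g (x + h) - g x) = g (y + h) - g y - g (x + h) + g x := by
        ring
      rw [e3]
      linarith
    · rw [abs_of_nonpos h0] at hh1 ⊢
      have h2 := hmix (x + h) (y - x) (-h) (by linarith) (by linarith) (by linarith)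
        (by linarith [hy.2])
      have e1 : x + h + (y - x) + -h = y := by ring
      have e2 : x + h + (y - x) = y + h := by ring
      have e4 : x + h + -h = x := by ring
      rw [e1, e2, e4] at h2
      rw [abs_of_nonneg (by linarith : (0 : ℝ) ≤ y - x)]
      have e3 : (g (y + h) - g y) - (g (x + h) - g x) = -(g y - g (y + h) - g x + g (x + h)) := by
        ring
      rw [e3, abs_neg]
      linarith
  rcases le_total x y with hxy | hxy
  · exact key x hx y hy hxy
  · filter_upwards [key y hy x hx hxy] with h hh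
    rw [abs_sub_comm, abs_sub_comm y x]
    exact hh

theorem main : S_CAL := by
  intro a b C D g hab hC hD hLip hmix
  -- points of differentiability are dense
  have hL : LipschitzOnWith D.toNNReal g (Set.Ioo a b) := by
    apply LipschitzOnWith.of_dist_le_mul
    intro x hx y hy
    rw [Real.dist_eq, Real.dist_eq, Real.coe_toNNReal D hD]
    exact hLip x hx y hy
  have hae : ∀ᵐ x : ℝ, x ∈ Set.Ioo a b → DifferentiableWithinAt ℝ g (Set.Ioo a b) x :=
    (ae_restrict_iff' measurableSet_Ioo).1 (hL.ae_differentiableWithinAt_real measurableSet_Ioo)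
  have hdense := Measure.dense_of_ae hae
  have hD0 : ∀ x ∈ Set.Ioo a b, ∀ ε : ℝ, 0 < ε →
      ∃ x0 ∈ Set.Ioo a b, DifferentiableAt ℝ g x0 ∧ |x - x0| < ε := by
    intro x hx ε hε
    have hU : IsOpen (Set.Ioo a b ∩ Metric.ball x ε) := isOpen_Ioo.inter Metric.isOpen_ball
    obtain ⟨x0, hx0, hp⟩ := hdense.inter_open_nonempty _ hU ⟨x, hx, Metric.mem_ball_self hε⟩
    refine ⟨x0, hx0.1, (hp hx0.1).differentiableAt (Ioo_mem_nhds hx0.1.1 hx0.1.2), ?_⟩
    have := hx0.2
    rw [Metric.mem_ball, Real.dist_eq, abs_sub_comm] at this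
    exact this
  -- the derivative is Lipschitz on the set of the points of differentiability
  set E : Set ℝ := {x | x ∈ Set.Ioo a b ∧ DifferentiableAt ℝ g x} with hE
  have hLE : LipschitzOnWith C.toNNReal (deriv g) E := by
    apply LipschitzOnWith.of_dist_le_mul
    intro x hx y hy
    rw [Real.dist_eq, Real.dist_eq, Real.coe_toNNReal C hC]
    have h1 := hasDerivAt_iff_tendsto_slope_zero.1 hx.2.hasDerivAt
    have h2 := hasDerivAt_iff_tendsto_slope_zero.1 hy.2.hasDerivAt
    have h3 := (h1.sub h2).abs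
    refine le_of_tendsto h3 ?_
    have h4 : ∀ᶠ h in 𝓝[≠] (0 : ℝ), |(g (x + h) - g x) - (g (y + h) - g y)| ≤
        C * |x - y| * |h| := (mixed hmix hy.1 hx.1).filter_mono nhdsWithin_le_nhds
    filter_upwards [h4, self_mem_nhdsWithin] with h hh hne
    have hne' : h ≠ 0 := hne
    have hpos : 0 < |h| := abs_pos.2 hne'
    rw [smul_eq_mul, smul_eq_mul, ← mul_sub, abs_mul, abs_inv, inv_mul_le_iff₀ hpos]
    linarith
  obtain ⟨G, hG, hGE⟩ := hLE.extend_real
  have hGd : ∀ x y, |G x - G y| ≤ C * |x - y| := by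
    intro x y
    have := hG.dist_le_mul x y
    rwa [Real.dist_eq, Real.dist_eq, Real.coe_toNNReal C hC] at this
  refine ⟨G, fun x hx => ?_, fun x _ y _ => hGd x y⟩
  rw [hasDerivAt_iff_isLittleO_nhds_zero, Asymptotics.isLittleO_iff]
  intro ε hε
  obtain ⟨x0, hx0, hd0, hxx⟩ := hD0 x hx (ε / (3 * (C + 1))) (by positivity)
  have h1 := (hasDerivAt_iff_isLittleO_nhds_zero.1 hd0.hasDerivAt)
  rw [Asymptotics.isLittleO_iff] at h1
  have h2 := h1 (show (0 : ℝ) < ε / 3 by positivity)
  have h3 := mixed hmix hx0 hx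
  filter_upwards [h2, h3] with h hh2 hh3
  rw [Real.norm_eq_abs, Real.norm_eq_abs, smul_eq_mul] at hh2 ⊢
  have h4 : deriv g x0 = G x0 := hGE ⟨hx0, hd0⟩
  rw [h4] at hh2
  have h5 : C * |x - x0| ≤ ε / 3 := by
    calc C * |x - x0| ≤ (C + 1) * (ε / (3 * (C + 1))) :=
          mul_le_mul (by linarith) hxx.le (abs_nonneg _) (by linarith)
      _ = ε / 3 := by field_simp
  have h6 : |h * (G x0 - G x)| ≤ ε / 3 * |h| := by
    rw [abs_mul, mul_comm]
    refine mul_le_mul_of_nonneg_right ?_ (abs_nonneg _)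
    rw [abs_sub_comm]
    exact (hGd x x0).trans h5
  have h7 : C * |x - x0| * |h| ≤ ε / 3 * |h| := mul_le_mul_of_nonneg_right h5 (abs_nonneg _)
  have e1 : g (x + h) - g x - h * G x = ((g (x + h) - g x) - (g (x0 + h) - g x0)) +
      (g (x0 + h) - g x0 - h * G x0) + h * (G x0 - G x) := by ring
  rw [e1]
  calc |((g (x + h) - g x) - (g (x0 + h) - g x0)) + (g (x0 + h) - g x0 - h * G x0) +
        h * (G x0 - G x)|
      ≤ |(g (x + h) - g x) - (g (x0 + h) - g x0)| + |g (x0 + h) - g x0 - h * G x0| +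
        |h * (G x0 - G x)| := abs_add_three _ _ _
    _ ≤ ε / 3 * |h| + ε / 3 * |h| + ε / 3 * |h| :=
        add_le_add (add_le_add (hh3.trans h7) hh2) h6
    _ = ε * |h| := by ring

end Pool.Agent.Y385.SD
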